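import Pool.Agent.Helper26_BSN.Stmts

set_option autoImplicit false

/-!
# Module NEQ: the two orders are not elementarily equivalent (adapted from `Helper37_BSig/Final`)
-/

namespace Pool.Agent.BSN.H4

open Filter Cardinal Pool.Agent.BSig Pool.Agent.BSN

open FirstOrder FirstOrder.Language

/-- The semantic content of the sentence. -/
def SemSentence (D : Type) [LE D] : Prop :=
  ∃ a u : D, (∃ x : D, ¬ a ≤ x) ∧
    (∀ b c : D, (∀ v : D, (b ≤ v ∧ a ≤ v) → c ≤ v) →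
      ((∀ v : D, (b ≤ v ∧ u ≤ v) → c ≤ v) ∨ (a ≤ b ∨ a ≤ c))) ∧
    ∀ b x y : D, ((∀ v : D, (b ≤ v ∧ a ≤ v) → (x ≤ v ∧ y ≤ v)) ∧
      ((∀ v : D, (x ≤ v ∧ y ≤ v) → a ≤ v) ∧ ∀ v : D, (b ≤ v ∧ u ≤ v) → a ≤ v)) →
      (a ≤ x ∨ (a ≤ y ∨ a ≤ b))

/-- The sentence separating the two structures. -/
def theSentence : Language.order.Sentence :=
  ∃' ∃' ((∃' ∼((&0 : Language.order.Term (Empty ⊕ Fin 3)).le (&2))) ⊓
    ((∀' ∀' ((∀' (((&2 : Language.order.Term (Empty ⊕ Fin 5)).le (&4) ⊓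
      (&0 : Language.order.Term (Empty ⊕ Fin 5)).le (&4)).imp
        ((&3 : Language.order.Term (Empty ⊕ Fin 5)).le (&4)))).imp
      ((∀' (((&2 : Language.order.Term (Empty ⊕ Fin 5)).le (&4) ⊓
        (&1 : Language.order.Term (Empty ⊕ Fin 5)).le (&4)).imp
          ((&3 : Language.order.Term (Empty ⊕ Fin 5)).le (&4)))) ⊔
        ((&0 : Language.order.Term (Empty ⊕ Fin 4)).le (&2) ⊔
          (&0 : Language.order.Term (Empty ⊕ Fin 4)).le (&3))))) ⊓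
    (∀' ∀' ∀' (((∀' (((&2 : Language.order.Term (Empty ⊕ Fin 6)).le (&5) ⊓
        (&0 : Language.order.Term (Empty ⊕ Fin 6)).le (&5)).imp
          ((&3 : Language.order.Term (Empty ⊕ Fin 6)).le (&5) ⊓
            (&4 : Language.order.Term (Empty ⊕ Fin 6)).le (&5)))) ⊓
      ((∀' (((&3 : Language.order.Term (Empty ⊕ Fin 6)).le (&5) ⊓
        (&4 : Language.order.Term (Empty ⊕ Fin 6)).le (&5)).imp
          ((&0 : Language.order.Term (Empty ⊕ Fin 6)).le (&5)))) ⊓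
      (∀' (((&2 : Language.order.Term (Empty ⊕ Fin 6)).le (&5) ⊓
        (&1 : Language.order.Term (Empty ⊕ Fin 6)).le (&5)).imp
          ((&0 : Language.order.Term (Empty ⊕ Fin 6)).le (&5)))))).imp
      ((&0 : Language.order.Term (Empty ⊕ Fin 5)).le (&3) ⊔
        ((&0 : Language.order.Term (Empty ⊕ Fin 5)).le (&4) ⊔
          (&0 : Language.order.Term (Empty ⊕ Fin 5)).le (&2)))))))

theorem realize_theSentence (D : Type) [LE D] [Language.order.Structure D]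
    [Language.order.OrderedStructure D] : D ⊨ theSentence ↔ SemSentence D := by
  unfold theSentence SemSentence Sentence.Realize Formula.Realize
  simp only [BoundedFormula.realize_ex, BoundedFormula.realize_inf, BoundedFormula.realize_not,
    BoundedFormula.realize_all, BoundedFormula.realize_imp, BoundedFormula.realize_sup,
    Term.realize_le]
  rfl

variable {τ : Tower}

theorem deg_eq_iff (hR : RedBasics (τ := τ)) (A B : Set (MMt τ)) :
    deg A = deg B ↔ Red A B ∧ Red B A := by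
  obtain ⟨h1, h2, -⟩ := hR
  constructor
  · intro h
    have he : Equivalence (fun A B : Set (MMt τ) => Red A B ∧ Red B A) :=
      ⟨fun A => ⟨h1 A, h1 A⟩, fun h => ⟨h.2, h.1⟩,
        fun h h' => ⟨h2 _ _ _ h.1 h'.1, h2 _ _ _ h'.2 h.2⟩⟩
    exact (Quot.eqvGen_exact h).rec (fun _ _ h => h) (fun x => he.refl x)
      (fun _ _ _ h => he.symm h) (fun _ _ _ _ _ h h' => he.trans h h')
  · intro h; exact Quot.sound h

theorem deg_le_iff (hR : RedBasics (τ := τ)) (A B : Set (MMt τ)) : deg A ≤ deg B ↔ Red A B := by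
  constructor
  · rintro ⟨A', B', h1, h2, h3⟩
    have e1 := (deg_eq_iff hR _ _).1 h1
    have e2 := (deg_eq_iff hR _ _).1 h2
    exact hR.2.1 _ _ _ e1.2 (hR.2.1 _ _ _ h3 e2.1)
  · intro h; exact ⟨A, B, rfl, rfl, h⟩

theorem sem_deg (hR : RedBasics (τ := τ)) (hC : Claim1 (τ := τ)) (hD : Claim2D (τ := τ))
    (hO : OmegaStmt (τ := τ)) : SemSentence (Deg (MMt τ)) := by
  have le := deg_le_iff hR
  obtain ⟨h1, h2, h3, h4, h5⟩ := hR
  refine ⟨deg (omega (MMt τ)), deg (LL τ), ⟨deg ∅, fun h => hO.2 ((le _ _).1 h)⟩, ?_, ?_⟩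
  · intro b c H
    obtain ⟨B, rfl⟩ := Quot.exists_rep b
    obtain ⟨C, rfl⟩ := Quot.exists_rep c
    change (∀ v : Deg (MMt τ), (deg B ≤ v ∧ deg (LL τ) ≤ v) → deg C ≤ v) ∨
      (deg (omega (MMt τ)) ≤ deg B ∨ deg (omega (MMt τ)) ≤ deg C)
    have hu := H (deg (jn B (omega (MMt τ)))) ⟨(le _ _).2 (h3 _ _), (le _ _).2 (h4 _ _)⟩
    have hu' : Red C (jn B (omega (MMt τ))) := (le _ _).1 hu
    rw [le, le]
    by_cases hB : Red (omega (MMt τ)) B
    · exact Or.inr (Or.inl hB)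
    by_cases hC' : Red (omega (MMt τ)) C
    · exact Or.inr (Or.inr hC')
    left
    rintro v ⟨hv1, hv2⟩
    obtain ⟨V, rfl⟩ := Quot.exists_rep v
    change deg B ≤ deg V at hv1
    change deg (LL τ) ≤ deg V at hv2
    change deg C ≤ deg V
    rw [le] at hv1 hv2 ⊢
    exact h2 _ _ _ (hC B C hu' hB hC') (h5 _ _ _ hv1 hv2)
  · rintro b x y ⟨H1, H2, H3⟩
    obtain ⟨B, rfl⟩ := Quot.exists_rep b
    obtain ⟨X, rfl⟩ := Quot.exists_rep x
    obtain ⟨Y, rfl⟩ := Quot.exists_rep y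
    change deg (omega (MMt τ)) ≤ deg X ∨ (deg (omega (MMt τ)) ≤ deg Y ∨ deg (omega (MMt τ)) ≤ deg B)
    obtain ⟨k1, k2⟩ := H1 (deg (jn B (omega (MMt τ)))) ⟨(le _ _).2 (h3 _ _), (le _ _).2 (h4 _ _)⟩
    have k1' : Red X (jn B (omega (MMt τ))) := (le _ _).1 k1
    have k2' : Red Y (jn B (omega (MMt τ))) := (le _ _).1 k2
    have k3 : Red (omega (MMt τ)) (jn X Y) :=
      (le _ _).1 (H2 (deg (jn X Y)) ⟨(le _ _).2 (h3 _ _), (le _ _).2 (h4 _ _)⟩)
    have k4 : Red (omega (MMt τ)) (jn B (LL τ)) :=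
      (le _ _).1 (H3 (deg (jn B (LL τ))) ⟨(le _ _).2 (h3 _ _), (le _ _).2 (h4 _ _)⟩)
    rw [le, le, le]
    exact hD B X Y k1' k2' k3 k4

theorem not_sem_cone (hR : RedBasics (τ := τ)) (hC : Claim2 (τ := τ)) :
    ¬ SemSentence (DegGE (omega (MMt τ))) := by
  have le := deg_le_iff hR
  obtain ⟨h1, h2, h3, h4, h5⟩ := hR
  rintro ⟨⟨a, ha⟩, ⟨u, hu⟩, ⟨⟨x, hx⟩, hax⟩, H1, H2⟩
  obtain ⟨A, rfl⟩ := Quot.exists_rep a
  obtain ⟨X, rfl⟩ := Quot.exists_rep x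
  change deg (omega (MMt τ)) ≤ deg A at ha
  change deg (omega (MMt τ)) ≤ deg X at hx
  change ¬ deg A ≤ deg X at hax
  rw [le] at ha hx hax
  have hA : ¬ Red A (omega (MMt τ)) := fun h => hax (h2 _ _ _ h hx)
  obtain ⟨G, K, g1, g2, g3, g4⟩ := hC A hA
  -- upper bounds of `b, a` are above `c`
  have hba : ∀ v : DegGE (omega (MMt τ)), ((⟨deg (jn G (omega (MMt τ))), (le _ _).2 (h4 _ _)⟩ :
      DegGE (omega (MMt τ))) ≤ v ∧ (⟨deg A, (le _ _).2 ha⟩ : DegGE (omega (MMt τ))) ≤ v) →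
      (⟨deg (jn K (omega (MMt τ))), (le _ _).2 (h4 _ _)⟩ : DegGE (omega (MMt τ))) ≤ v := by
    rintro ⟨v, hv⟩ ⟨hv1, hv2⟩
    obtain ⟨V, rfl⟩ := Quot.exists_rep v
    change deg (omega (MMt τ)) ≤ deg V at hv
    change deg (jn G (omega (MMt τ))) ≤ deg V at hv1
    change deg A ≤ deg V at hv2
    change deg (jn K (omega (MMt τ))) ≤ deg V
    rw [le] at *
    exact h5 _ _ _ (h2 _ _ _ g3 (h5 _ _ _ (h2 _ _ _ (h3 _ _) hv1) hv2)) hv
  -- upper bounds of `b, c` are above `a`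
  have hbc : ∀ v : DegGE (omega (MMt τ)), ((⟨deg (jn G (omega (MMt τ))), (le _ _).2 (h4 _ _)⟩ :
      DegGE (omega (MMt τ))) ≤ v ∧ (⟨deg (jn K (omega (MMt τ))), (le _ _).2 (h4 _ _)⟩ :
      DegGE (omega (MMt τ))) ≤ v) → (⟨deg A, (le _ _).2 ha⟩ : DegGE (omega (MMt τ))) ≤ v := by
    rintro ⟨v, hv⟩ ⟨hv1, hv2⟩
    obtain ⟨V, rfl⟩ := Quot.exists_rep v
    change deg (omega (MMt τ)) ≤ deg V at hv
    change deg (jn G (omega (MMt τ))) ≤ deg V at hv1
    change deg (jn K (omega (MMt τ))) ≤ deg V at hv2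
    change deg A ≤ deg V
    rw [le] at *
    exact h2 _ _ _ g4 (h5 _ _ _ (h2 _ _ _ (h3 _ _) hv1) (h2 _ _ _ (h3 _ _) hv2))
  have hab : ¬ ((⟨deg A, (le _ _).2 ha⟩ : DegGE (omega (MMt τ))) ≤
      ⟨deg (jn G (omega (MMt τ))), (le _ _).2 (h4 _ _)⟩) := by
    intro h
    change deg A ≤ deg (jn G (omega (MMt τ))) at h
    rw [le] at h; exact g1 h
  have hac : ¬ ((⟨deg A, (le _ _).2 ha⟩ : DegGE (omega (MMt τ))) ≤
      ⟨deg (jn K (omega (MMt τ))), (le _ _).2 (h4 _ _)⟩) := by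
    intro h
    change deg A ≤ deg (jn K (omega (MMt τ))) at h
    rw [le] at h; exact g2 h
  have hc := (H1 _ _ hba).resolve_right fun h => h.elim hab hac
  rcases H2 ⟨deg (jn G (omega (MMt τ))), (le _ _).2 (h4 _ _)⟩
    ⟨deg (jn G (omega (MMt τ))), (le _ _).2 (h4 _ _)⟩
    ⟨deg (jn K (omega (MMt τ))), (le _ _).2 (h4 _ _)⟩
    ⟨fun v hv => ⟨hv.1, hba v hv⟩, hbc, fun v hv => hbc v ⟨hv.1, hc v hv⟩⟩ with h | h | h
  · exact hab h
  · exact hac h
  · exact hab h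

instance instDegOrd : Language.order.OrderedStructure (Deg (MMt τ)) := ⟨fun _ => Iff.rfl⟩
instance instDegGEOrd : Language.order.OrderedStructure (DegGE (omega (MMt τ))) := ⟨fun _ => Iff.rfl⟩

theorem neq (h1 : Claim1 (τ := τ)) (h2 : Claim2D (τ := τ)) (h3 : Claim2 (τ := τ))
    (h4 : RedBasics (τ := τ)) (h5 : OmegaStmt (τ := τ)) : NeqStmt (τ := τ) := by
  intro h
  have h' := (elementarilyEquivalent_iff.1 h) theSentence
  rw [realize_theSentence, realize_theSentence] at h'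
  exact not_sem_cone h4 h3 (h'.1 (sem_deg h4 h1 h2 h5))

end Pool.Agent.BSN.H4
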